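import Pool.Agent.Work.MP_84019e_co.GridLimit

set_option autoImplicit false

namespace Pool.Agent.Work.MP_84019e_co.Cor.WeakGridLimit

open Pool.Agent.Work.MP_84019e_co

/-- For every finite poset `P` and every dimension `d ≥ 1`, the largest size of a weak `P`-free
family in the grid `[k]^d`, divided by the width of the grid, converges as `k` grows. -/
theorem result (P : Type) [PartialOrder P] [Fintype P] [Nonempty P] (d : ℕ) (hd : 1 ≤ d) :
    ∃ L : ℝ, Filter.Tendsto
      (fun k : ℕ => (La (Fin d → Fin k) P : ℝ) / (width (Fin d → Fin k) : ℝ))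
      Filter.atTop (nhds L) := by
  obtain ⟨m, rfl⟩ : ∃ m, d = m + 1 := ⟨d - 1, by omega⟩
  obtain ⟨L, hL⟩ := exists_lim (P := P) m
  obtain ⟨L2, hL2⟩ := exists_lim (P := Fin 2) m
  exact ⟨_, ratio_tendsto hL hL2⟩

end Pool.Agent.Work.MP_84019e_co.Cor.WeakGridLimit

namespace Pool.Agent.Work.MP_84019e_co.Cor.WeakDimensionLimit

open Pool.Agent.Work.MP_84019e_co

/-- For every finite poset `P` there is a number `L` such that, for all large dimensions `d` and
then all large side lengths `k`, the largest size of a weak `P`-free family in the grid `[k]^d`,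
divided by the width of the grid, is close to `L`. -/
theorem result (P : Type) [PartialOrder P] [Fintype P] [Nonempty P] :
    ∃ L : ℝ, ∀ ε : ℝ, 0 < ε → ∃ d₀ : ℕ, ∀ d : ℕ, d₀ ≤ d → ∃ k₀ : ℕ, ∀ k : ℕ, k₀ ≤ k →
      |(La (Fin d → Fin k) P : ℝ) / (width (Fin d → Fin k) : ℝ) - L| < ε := by
  choose F hF using exists_lim (P := P)
  choose C hC using exists_lim (P := Fin 2)
  obtain ⟨L, hL⟩ := dim_limit F C hF hC
  refine ⟨L, fun ε hε => ?_⟩
  obtain ⟨m0, hm0⟩ := Metric.tendsto_atTop.1 hL (ε / 2) (by linarith)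
  refine ⟨m0 + 1, fun d hd => ?_⟩
  obtain ⟨m, rfl⟩ : ∃ m, d = m + 1 := ⟨d - 1, by omega⟩
  obtain ⟨k0, hk0⟩ := Metric.tendsto_atTop.1 (ratio_tendsto (hF m) (hC m)) (ε / 2) (by linarith)
  refine ⟨k0, fun k hk => ?_⟩
  have h1 := hk0 k hk
  have h2 := hm0 m (by omega)
  rw [Real.dist_eq] at h1 h2
  exact (abs_sub_le _ (F m / C m) _).trans_lt (by linarith)

end Pool.Agent.Work.MP_84019e_co.Cor.WeakDimensionLimit
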