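import Pool.Agent.Work.MP_84019e_co.Str.Final

set_option autoImplicit false

namespace Pool.Agent.Work.MP_84019e_co.CorStrong.StrongCubeLimit

open Pool.Agent.Work.MP_84019e_co.Str Filter Topology

/-- For every finite poset `P`, the largest size of a strong `P`-free family of subsets of an
`n`-element set, divided by the middle binomial coefficient, converges. -/
theorem result (P : Type) [PartialOrder P] [Fintype P] [Nonempty P] :
    ∃ π : ℝ,
      Tendsto (fun n : ℕ => (LaStar (Finset (Fin n)) P : ℝ) / (n.choose (n / 2) : ℝ)) atTop
        (𝓝 π) :=
  strong_limit P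

end Pool.Agent.Work.MP_84019e_co.CorStrong.StrongCubeLimit
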