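import Mathlib

set_option autoImplicit false

namespace Pool.Agent.Work.MP_84019e_co

open Finset

/-- A finite family `F` in the poset `Q` is weak `P`-free: there is no injection of `P` into `F`
that preserves the order. -/
def WeakFree (P : Type) [PartialOrder P] {Q : Type} [PartialOrder Q] (F : Finset Q) : Prop :=
  ¬ ∃ f : P → Q, Function.Injective f ∧ (∀ p, f p ∈ F) ∧ ∀ p q, p ≤ q → f p ≤ f q

/-- The largest size of a weak `P`-free family in `Q`. -/
noncomputable def La (Q : Type) [PartialOrder Q] (P : Type) [PartialOrder P] : ℕ :=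
  sSup {n | ∃ F : Finset Q, WeakFree P F ∧ F.card = n}

/-- The largest size of an antichain in `Q`. -/
noncomputable def width (Q : Type) [PartialOrder Q] : ℕ :=
  sSup {n | ∃ A : Finset Q, IsAntichain (· ≤ ·) (A : Set Q) ∧ A.card = n}

/-- The grid as a set of integer points. -/
noncomputable def box (d : ℕ) (k : ℤ) : Finset (Fin d → ℤ) :=
  Fintype.piFinset fun _ => Finset.Ico (0 : ℤ) k

lemma mem_box {d : ℕ} {k : ℤ} {x : Fin d → ℤ} : x ∈ box d k ↔ ∀ i, 0 ≤ x i ∧ x i < k := by
  simp [box, Fintype.mem_piFinset]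

/-- The extremal number for families of integer points. -/
noncomputable def G (P : Type) [PartialOrder P] (d : ℕ) (k : ℕ) : ℕ :=
  sSup {n | ∃ F : Finset (Fin d → ℤ), F ⊆ box d k ∧ WeakFree P F ∧ F.card = n}

variable {P : Type} [PartialOrder P]

lemma WeakFree.mono {Q : Type} [PartialOrder Q] {F F' : Finset Q} (h : WeakFree P F)
    (hs : F' ⊆ F) : WeakFree P F' := by
  rintro ⟨f, hf, hm, ho⟩
  exact h ⟨f, hf, fun p => hs (hm p), ho⟩

lemma weakFree_empty [Nonempty P] {Q : Type} [PartialOrder Q] : WeakFree P (∅ : Finset Q) := by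
  rintro ⟨f, -, hm, -⟩
  exact absurd (hm (Classical.arbitrary P)) (by simp)

lemma G_bdd (d k : ℕ) :
    BddAbove {n | ∃ F : Finset (Fin d → ℤ), F ⊆ box d k ∧ WeakFree P F ∧ F.card = n} := by
  refine ⟨(box d k).card, ?_⟩
  rintro n ⟨F, hF, -, rfl⟩
  exact card_le_card hF

lemma le_G {d k : ℕ} {F : Finset (Fin d → ℤ)} (hF : F ⊆ box d k) (hP : WeakFree P F) :
    F.card ≤ G P d k :=
  le_csSup (G_bdd d k) ⟨F, hF, hP, rfl⟩

lemma G_spec [Nonempty P] (d k : ℕ) :
    ∃ F : Finset (Fin d → ℤ), F ⊆ box d k ∧ WeakFree P F ∧ F.card = G P d k :=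
  Nat.sSup_mem (s := {n | ∃ F : Finset (Fin d → ℤ), F ⊆ box d k ∧ WeakFree P F ∧ F.card = n})
    ⟨0, ∅, by simp, weakFree_empty, rfl⟩ (G_bdd d k)

/-- Pulling back along a map that is injective on the family and reflects nothing more than
the order. -/
lemma WeakFree.of_map {Q Q' : Type} [PartialOrder Q] [PartialOrder Q'] {F : Finset Q}
    {F' : Finset Q'} (h : WeakFree P F') (g : Q → Q') (hg : ∀ x ∈ F, g x ∈ F')
    (hi : Set.InjOn g F) (ho : ∀ x ∈ F, ∀ y ∈ F, x ≤ y → g x ≤ g y) : WeakFree P F := by
  rintro ⟨f, hf, hm, hfo⟩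
  refine h ⟨g ∘ f, fun p q hpq => hf (hi (hm p) (hm q) hpq), fun p => hg _ (hm p),
    fun p q hpq => ho _ (hm p) _ (hm q) (hfo p q hpq)⟩

lemma La_eq_G (d k : ℕ) : La (Fin d → Fin k) P = G P d k := by
  classical
  unfold La G
  congr 1
  ext n
  let e : (Fin d → Fin k) → (Fin d → ℤ) := fun x i => ((x i : ℕ) : ℤ)
  have he : Function.Injective e := by
    intro x y hxy
    funext i
    have := congrFun hxy i
    simp only [e, Nat.cast_inj] at this
    exact Fin.ext this
  have heo : ∀ x y, e x ≤ e y ↔ x ≤ y := by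
    intro x y
    simp only [e, Pi.le_def, Nat.cast_le]
    rfl
  constructor
  · rintro ⟨F, hF, rfl⟩
    refine ⟨F.image e, ?_, ?_, card_image_of_injective _ he⟩
    · intro x hx
      obtain ⟨y, -, rfl⟩ := mem_image.1 hx
      rw [mem_box]
      intro i
      exact ⟨by simp [e], by simp [e]⟩
    · rintro ⟨f, hf, hm, ho⟩
      choose g hg hge using fun p => mem_image.1 (hm p)
      refine hF ⟨g, fun p q hpq => hf (by rw [← hge p, ← hge q, hpq]), hg, fun p q hpq => ?_⟩
      rw [← heo, hge, hge]
      exact ho p q hpq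
  · rintro ⟨F, hB, hF, rfl⟩
    refine ⟨univ.filter fun x => e x ∈ F, ?_, ?_⟩
    · exact hF.of_map e (fun x hx => (mem_filter.1 hx).2) he.injOn
        (fun x _ y _ hxy => (heo x y).2 hxy)
    · rw [← card_image_of_injective _ he]
      congr 1
      ext x
      simp only [mem_image, mem_filter, mem_univ, true_and]
      constructor
      · rintro ⟨y, hy, rfl⟩
        exact hy
      · intro hx
        have hb := mem_box.1 (hB hx)
        have hxe : e (fun i => ⟨(x i).toNat, by have := hb i; omega⟩) = x := by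
          funext i
          have := hb i
          simp only [e]
          omega
        exact ⟨_, by rw [hxe]; exact hx, hxe⟩

lemma weakFree_two_iff {Q : Type} [PartialOrder Q] (A : Finset Q) :
    WeakFree (Fin 2) A ↔ IsAntichain (· ≤ ·) (A : Set Q) := by
  constructor
  · intro h x hx y hy hne hle
    refine h ⟨![x, y], ?_, ?_, ?_⟩
    · intro p q hpq
      fin_cases p <;> fin_cases q <;> simp_all
    · intro p
      fin_cases p
      · simpa using hx
      · simpa using hy
    · intro p q hpq
      fin_cases p <;> fin_cases q <;> simp_all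
  · rintro h ⟨f, hf, hm, ho⟩
    exact h (hm 0) (hm 1) (fun h01 => absurd (hf h01) (by decide)) (ho 0 1 (by decide))

lemma width_eq_La (Q : Type) [PartialOrder Q] : width Q = La Q (Fin 2) := by
  unfold width La
  congr 1
  ext n
  simp only [Set.mem_ofPred_eq, weakFree_two_iff]

/-- A weak `P`-free family has no chain with `|P|` elements. -/
lemma chain_lt [Fintype P] {Q : Type} [PartialOrder Q] {F : Finset Q} (hF : WeakFree P F)
    {n : ℕ} (c : Fin (n + 1) → Q) (hc : StrictMono c) (hm : ∀ i, c i ∈ F) :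
    n + 1 < Fintype.card P := by
  classical
  by_contra hn
  push Not at hn
  have : Fintype (LinearExtension P) := inferInstanceAs (Fintype P)
  have hcard : Fintype.card (LinearExtension P) = Fintype.card P :=
    Fintype.card_congr (Equiv.refl P)
  let e := monoEquivOfFin (LinearExtension P) hcard
  refine hF ⟨fun p => c (Fin.castLE hn (e.symm (toLinearExtension p))), ?_, fun p => hm _, ?_⟩
  · intro p q hpq
    have h1 := hc.injective hpq
    have h2 := Fin.castLE_injective hn h1
    exact e.symm.injective h2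
  · intro p q hpq
    apply hc.monotone
    have : e.symm (toLinearExtension p) ≤ e.symm (toLinearExtension q) :=
      e.symm.monotone (toLinearExtension.monotone hpq)
    exact this

/-- Mirsky levels. -/
lemma exists_lev [Fintype P] {Q : Type} [PartialOrder Q] {F : Finset Q} (hF : WeakFree P F) :
    ∃ lev : Q → ℕ, (∀ x ∈ F, lev x < Fintype.card P) ∧
      ∀ x ∈ F, ∀ y ∈ F, x < y → lev x < lev y := by
  let S : Q → Set ℕ := fun x =>
    {n | ∃ c : Fin (n + 1) → Q, StrictMono c ∧ (∀ i, c i ∈ F) ∧ c (Fin.last n) = x}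
  have hb : ∀ x, BddAbove (S x) := fun x =>
    ⟨Fintype.card P, fun n ⟨c, hc, hm, _⟩ => by have := chain_lt hF c hc hm; omega⟩
  have hne : ∀ x ∈ F, (S x).Nonempty := fun x hx =>
    ⟨0, fun _ => x, fun i j hij => absurd hij (by omega), fun _ => hx, rfl⟩
  refine ⟨fun x => sSup (S x), fun x hx => ?_, fun x hx y hy hxy => ?_⟩
  · obtain ⟨c, hc, hm, -⟩ := Nat.sSup_mem (hne x hx) (hb x)
    have := chain_lt hF c hc hm
    show sSup (S x) < _
    omega
  · obtain ⟨c, hc, hm, hl⟩ := Nat.sSup_mem (hne x hx) (hb x)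
    have : sSup (S x) + 1 ∈ S y := by
      refine ⟨Fin.snoc c y, ?_, ?_, by simp⟩
      · rw [Fin.strictMono_iff_lt_succ]
        intro i
        refine Fin.lastCases ?_ (fun j => ?_) i
        · simp [hl, hxy]
        · have h1 : (Fin.castSucc j).succ = Fin.castSucc j.succ := rfl
          rw [h1, Fin.snoc_castSucc, Fin.snoc_castSucc]
          exact hc (Fin.castSucc_lt_succ)
      · intro i
        refine Fin.lastCases ?_ (fun j => ?_) i
        · simpa using hy
        · simpa using hm j
    have h2 := le_csSup (hb y) this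
    show sSup (S x) < sSup (S y)
    omega

end Pool.Agent.Work.MP_84019e_co
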